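import Pool.Agent.H37.CSZ.Stmts
import Pool.Agent.H50.CNU.UNK

/-!
# Board `csz`, row ZZK (helper21): the data `SzD` define a cover
-/

set_option autoImplicit false

namespace Pool.CND

open Finset Matrix

/-- `u_0, …, u_3` are independent over `F` -/
theorem zzk_indep {F K : Type} [Field F] [Field K] [CharP K 2] (φ : F →+* K) {m q : ℕ}
    (hq : q = 2 ^ m) (hF : ∀ a : F, a ^ q = a) (u : Fin 4 → K)
    (h1 : u 0 * u 3 ^ q + u 3 * u 0 ^ q + u 1 * u 2 ^ q + u 2 * u 1 ^ q = 0)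
    (h2 : u 0 * u 3 ^ (q ^ 2) + u 3 * u 0 ^ (q ^ 2) + u 1 * u 2 ^ (q ^ 2) +
      u 2 * u 1 ^ (q ^ 2) = 1) (α : Fin 4 → F)
    (h0 : ∑ j, φ (α j) * u j = 0) : α = 0 := by
  have hq0 : q ≠ 0 := by rw [hq]; positivity
  have h2z : (2 : K) = 0 := CharTwo.two_eq_zero
  have hadd : ∀ a b : K, (a + b) ^ q = a ^ q + b ^ q := fun a b => by
    rw [hq]; exact add_pow_char_pow a b 2 m
  have hA : ∀ a : F, (φ a) ^ q = φ a := fun a => by rw [← map_pow, hF]
  have hz : ∀ v : Fin 4 → K, ∑ j, φ (α j) * v j = 0 → ∑ j, φ (α j) * v j ^ q = 0 := by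
    intro v h
    have h3 : (∑ j, φ (α j) * v j) ^ q = 0 := by
      rw [h]; exact zero_pow hq0
    rw [Fin.sum_univ_four, hadd, hadd, hadd, mul_pow, mul_pow, mul_pow, mul_pow,
      hA, hA, hA, hA] at h3
    rw [Fin.sum_univ_four]
    exact h3
  have e2 : ∀ a : K, (a ^ q) ^ q = a ^ (q ^ 2) := fun a => by rw [← pow_mul, pow_two]
  have e3 : ∀ a : K, (a ^ (q ^ 2)) ^ q = a ^ (q ^ 3) := fun a => by rw [← pow_mul, ← pow_succ]
  have k1 := hz _ h0
  have k2 := hz _ k1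
  have k3 := hz _ k2
  simp only [e2] at k2
  simp only [e2, e3] at k3
  have g12 : u 0 ^ q * u 3 ^ (q ^ 2) + u 3 ^ q * u 0 ^ (q ^ 2) + u 1 ^ q * u 2 ^ (q ^ 2) +
      u 2 ^ q * u 1 ^ (q ^ 2) = 0 := by
    have h5 := congrArg (· ^ q) h1
    simp only [hadd, mul_pow, e2, zero_pow hq0] at h5
    exact h5
  have g23 : u 0 ^ (q ^ 2) * u 3 ^ (q ^ 3) + u 3 ^ (q ^ 2) * u 0 ^ (q ^ 3) +
      u 1 ^ (q ^ 2) * u 2 ^ (q ^ 3) + u 2 ^ (q ^ 2) * u 1 ^ (q ^ 3) = 0 := by
    have h5 := congrArg (· ^ q) g12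
    simp only [hadd, mul_pow, e2, e3, zero_pow hq0] at h5
    exact h5
  have g13 : u 0 ^ q * u 3 ^ (q ^ 3) + u 3 ^ q * u 0 ^ (q ^ 3) + u 1 ^ q * u 2 ^ (q ^ 3) +
      u 2 ^ q * u 1 ^ (q ^ 3) = 1 := by
    have h5 := congrArg (· ^ q) h2
    simp only [hadd, mul_pow, e3, one_pow] at h5
    exact h5
  set s : K := u 0 * u 3 ^ (q ^ 3) + u 3 * u 0 ^ (q ^ 3) + u 1 * u 2 ^ (q ^ 3) +
      u 2 * u 1 ^ (q ^ 3) with hs
  let U : Matrix (Fin 4) (Fin 4) K := !![u 0, u 1, u 2, u 3;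
    u 0 ^ q, u 1 ^ q, u 2 ^ q, u 3 ^ q;
    u 0 ^ (q ^ 2), u 1 ^ (q ^ 2), u 2 ^ (q ^ 2), u 3 ^ (q ^ 2);
    u 0 ^ (q ^ 3), u 1 ^ (q ^ 3), u 2 ^ (q ^ 3), u 3 ^ (q ^ 3)]
  let G : Matrix (Fin 4) (Fin 4) K := !![0, 0, 1, s; 0, 0, 0, 1; 1, 0, 0, 0; s, 1, 0, 0]
  let H : Matrix (Fin 4) (Fin 4) K := !![0, 0, 1, 0; 0, 0, -s, 1; 1, -s, 0, 0; 0, 1, 0, 0]
  have hGH : G * H = 1 := by
    ext i j
    fin_cases i <;> fin_cases j <;> simp [G, H, Matrix.mul_apply, Fin.sum_univ_four]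
  have hUG : U * J4 K * Uᵀ = G := by
    ext i j
    simp only [Matrix.mul_apply, Fin.sum_univ_four, Matrix.transpose_apply]
    fin_cases i <;> fin_cases j <;> simp [U, G, J4]
    · linear_combination (u 0 * u 3 + u 1 * u 2) * h2z
    · linear_combination h1
    · linear_combination h2
    · rw [hs]; ring
    · linear_combination h1
    · linear_combination (u 0 ^ q * u 3 ^ q + u 1 ^ q * u 2 ^ q) * h2z
    · linear_combination g12
    · linear_combination g13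
    · linear_combination h2
    · linear_combination g12
    · linear_combination (u 0 ^ (q ^ 2) * u 3 ^ (q ^ 2) + u 1 ^ (q ^ 2) * u 2 ^ (q ^ 2)) * h2z
    · linear_combination g23
    · rw [hs]; ring
    · linear_combination g13
    · linear_combination g23
    · linear_combination (u 0 ^ (q ^ 3) * u 3 ^ (q ^ 3) + u 1 ^ (q ^ 3) * u 2 ^ (q ^ 3)) * h2z
  have hinv : (J4 K * Uᵀ * H) * U = 1 := by
    rw [mul_eq_one_comm]
    calc U * (J4 K * Uᵀ * H) = (U * J4 K * Uᵀ) * H := by simp only [Matrix.mul_assoc]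
      _ = 1 := by rw [hUG, hGH]
  have hUα : U *ᵥ (fun j => φ (α j)) = 0 := by
    rw [Fin.sum_univ_four] at h0 k1 k2 k3
    ext i
    simp only [Matrix.mulVec, dotProduct, Fin.sum_univ_four, Pi.zero_apply]
    fin_cases i
    · simp [U]; linear_combination h0
    · simp [U]; linear_combination k1
    · simp [U]; linear_combination k2
    · simp [U]; linear_combination k3
  have hα : (fun j => φ (α j)) = 0 := by
    have h6 : ((J4 K * Uᵀ * H) * U) *ᵥ (fun j => φ (α j)) = 0 := by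
      rw [← Matrix.mulVec_mulVec, hUα, Matrix.mulVec_zero]
    rwa [hinv, Matrix.one_mulVec] at h6
  ext j
  apply φ.injective
  rw [Pi.zero_apply, map_zero]
  exact congrFun hα j

/-- a root of the equation is integral if `t` is -/
theorem zzk_int {k L : Type} [Field k] [Field L] [Algebra k L] (P : Place k L) {x t : L}
    {q f : ℕ} (hq : 2 ≤ q) (ht : P.Ge t 0)
    (h : x ^ (q ^ 4) + t ^ q * x ^ (q ^ 3) + t ^ f * x ^ (q ^ 2) + t * x ^ q + x = 0) :
    P.Ge x 0 := by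
  by_contra hx
  obtain ⟨hx0, hxlt⟩ := P.not_ge.1 hx
  have hpw0 : ∀ n : ℕ, P.Ge (t ^ n) 0 := by
    intro n
    induction n with
    | zero => rw [pow_zero]; exact Or.inr (by rw [P.ord_one])
    | succ n ih =>
      rw [pow_succ]
      have := P.ge_mul ih ht
      rwa [add_zero] at this
  have hmono : ∀ a b : ℕ, a ≤ b → (b : ℤ) * P.ord x ≤ (a : ℤ) * P.ord x := by
    intro a b hab
    have : (a : ℤ) ≤ (b : ℤ) := by exact_mod_cast hab
    nlinarith
  have h13 : q ≤ q ^ 3 := by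
    calc q = q ^ 1 := (pow_one q).symm
      _ ≤ q ^ 3 := Nat.pow_le_pow_right (by omega) (by norm_num)
  have h23 : q ^ 2 ≤ q ^ 3 := Nat.pow_le_pow_right (by omega) (by norm_num)
  have h03 : 1 ≤ q ^ 3 := Nat.one_le_pow _ _ (by omega)
  have h34 : q ^ 3 < q ^ 4 := Nat.pow_lt_pow_right (by omega) (by norm_num)
  have gt : ∀ (s : L) (n : ℕ), P.Ge s 0 → n ≤ q ^ 3 →
      P.Ge (s * x ^ n) ((q ^ 3 : ℕ) * P.ord x) := by
    intro s n hs hn
    have := P.ge_mul hs (Or.inr (by rw [P.ord_pow hx0]; exact hmono _ _ hn) :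
      P.Ge (x ^ n) ((q ^ 3 : ℕ) * P.ord x))
    rwa [zero_add] at this
  have g0 := gt (t ^ q) (q ^ 3) (hpw0 q) le_rfl
  have g1 := gt (t ^ f) (q ^ 2) (hpw0 f) h23
  have g2 := gt t q ht h13
  have g3 : P.Ge x ((q ^ 3 : ℕ) * P.ord x) := by
    refine Or.inr ?_
    have := hmono 1 (q ^ 3) h03
    rwa [Nat.cast_one, one_mul] at this
  have e : x ^ (q ^ 4) = -(t ^ q * x ^ (q ^ 3) + t ^ f * x ^ (q ^ 2) + t * x ^ q + x) := by
    linear_combination h
  have g4 : P.Ge (x ^ (q ^ 4)) ((q ^ 3 : ℕ) * P.ord x) := by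
    rw [e]
    exact P.ge_neg (P.ge_add (P.ge_add (P.ge_add g0 g1) g2) g3)
  have g5 := (P.ge_iff (pow_ne_zero _ hx0) _).1 g4
  rw [P.ord_pow hx0] at g5
  have h34' : ((q ^ 3 : ℕ) : ℤ) + 1 ≤ ((q ^ 4 : ℕ) : ℤ) := by exact_mod_cast h34
  nlinarith

theorem zzk_thm : S_ZZK := by
  intro n q f e k F L _ _ _ _ _ _ φ t X ρ P hc hn hf hq hef hFq hφ C
  have hq2 : 2 ≤ q := by
    rw [hq]
    calc 2 = 2 ^ 1 := rfl
      _ ≤ 2 ^ (2 * n + 1) := Nat.pow_le_pow_right (by norm_num) (by omega)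
  have hcL : CharP L 2 := charP_of_injective_algebraMap (algebraMap k L).injective 2
  have hfin : Finite F := Nat.finite_of_card_ne_zero (by rw [hFq]; omega)
  have hpow : ∀ a : F, a ^ q = a := by
    intro a
    have := Fintype.ofFinite F
    rw [← hFq, Nat.card_eq_fintype_card]
    exact FiniteField.pow_card a
  have hR := C.rels
  have hone : ∀ (K : Type) [Field K] [CharP K 2] (ψ : F →+* K) (u : Fin 4 → K)
      (_ : u 0 * u 3 ^ q + u 3 * u 0 ^ q + u 1 * u 2 ^ q + u 2 * u 1 ^ q = 0)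
      (_ : u 0 * u 3 ^ (q ^ 2) + u 3 * u 0 ^ (q ^ 2) + u 1 * u 2 ^ (q ^ 2) +
        u 2 * u 1 ^ (q ^ 2) = 1) (g : Sz φ)
      (_ : ∀ i, ∑ j, ψ (g.1.1 j i) * u j = u i), g = 1 := by
    intro K _ _ ψ u h1 h2 g hg
    have key : ∀ i, (fun j => g.1.1 j i - (1 : Matrix (Fin 4) (Fin 4) F) j i) = 0 := by
      intro i
      apply zzk_indep ψ hq hpow u h1 h2
      have h3 : ∑ j, ψ ((1 : Matrix (Fin 4) (Fin 4) F) j i) * u j = u i := by
        rw [Finset.sum_eq_single i]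
        · rw [Matrix.one_apply_eq, map_one, one_mul]
        · intro j _ hj
          rw [Matrix.one_apply_ne hj, map_zero, zero_mul]
        · intro h; exact absurd (Finset.mem_univ i) h
      have h4 : ∑ j, ψ (g.1.1 j i - (1 : Matrix (Fin 4) (Fin 4) F) j i) * u j =
          ∑ j, ψ (g.1.1 j i) * u j - ∑ j, ψ ((1 : Matrix (Fin 4) (Fin 4) F) j i) * u j := by
        rw [← Finset.sum_sub_distrib]
        exact Finset.sum_congr rfl fun j _ => by rw [map_sub, sub_mul]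
      rw [h4, hg i, h3, sub_self]
    apply Subtype.ext
    apply Subtype.ext
    ext j i
    have := congrFun (key i) j
    simp only [Pi.zero_apply, sub_eq_zero] at this
    exact this
  have hinj : Function.Injective ρ := by
    rw [injective_iff_map_eq_one]
    intro g hg
    refine hone L ((algebraMap k L).comp (algebraMap F k)) X hR.h1 hR.h2 g ?_
    intro i
    have h1 := C.act_X g i
    rw [hg, AlgEquiv.one_apply] at h1
    exact h1.symm
  refine ⟨hinj, C.tr, ?_, ?_⟩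
  · intro z
    refine ⟨C.fixed z, ?_⟩
    have hK : IntermediateField.adjoin k {t} ≤ IntermediateField.fixedField ρ.range := by
      rw [IntermediateField.adjoin_simple_le_iff]
      rintro ⟨τ, g, rfl⟩
      exact C.act_t g
    intro hz g
    exact hK hz ⟨ρ g, g, rfl⟩
  · intro Q ht g hg
    have ht' : Q.Ge t 0 := Or.inr ht
    have hX : ∀ i, Q.Ge (X i) 0 := fun i => zzk_int Q hq2 ht' (hR.rel i)
    choose u hu using fun i => UnkR.ex (hX i)
    have hB : ∀ r : ℕ, UnkR Q (X 0 * X 3 ^ r + X 3 * X 0 ^ r + X 1 * X 2 ^ r + X 2 * X 1 ^ r)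
        (u 0 * u 3 ^ r + u 3 * u 0 ^ r + u 1 * u 2 ^ r + u 2 * u 1 ^ r) := by
      intro r
      exact ((((hu 0).mul ((hu 3).pow r)).add ((hu 3).mul ((hu 0).pow r))).add
        ((hu 1).mul ((hu 2).pow r))).add ((hu 2).mul ((hu 1).pow r))
    have h1 : u 0 * u 3 ^ q + u 3 * u 0 ^ q + u 1 * u 2 ^ q + u 2 * u 1 ^ q = 0 := by
      have e1 := hB q
      rw [hR.h1] at e1
      have e2 : UnkR Q (0 : L) 0 := by
        have := UnkR.cst (Q := Q) (0 : k)
        rwa [map_zero] at this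
      exact e1.uniq e2
    have h2 : u 0 * u 3 ^ (q ^ 2) + u 3 * u 0 ^ (q ^ 2) + u 1 * u 2 ^ (q ^ 2) +
        u 2 * u 1 ^ (q ^ 2) = 1 := by
      have e1 := hB (q ^ 2)
      rw [hR.h2] at e1
      exact e1.uniq UnkR.one
    refine hone k (algebraMap F k) u h1 h2 g ?_
    intro i
    have e1 := (hu i).fix hg
    rw [C.act_X g i, Fin.sum_univ_four] at e1
    have e2 : ∀ j, UnkR Q (cst k F L (g.1.1 j i) * X j) (algebraMap F k (g.1.1 j i) * u j) :=
      fun j => (UnkR.cst _).mul (hu j)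
    rw [Fin.sum_univ_four]
    exact ((((e2 0).add (e2 1)).add (e2 2)).add (e2 3)).uniq e1

end Pool.CND
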