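import Pool.Agent.H37.CSZ.Stmts
import Pool.Agent.H55.CNE.SLT

/-!
# Board `csz`, row ZZT (helper21): the degree of `t` as a rational function of `u`
-/

set_option autoImplicit false

namespace Pool.CND

open Polynomial

theorem zzt_thm : S_ZZT := by
  intro n q f e k Ω _ _ _ u t _ hn hf hq hef hu ht
  have hff : f * f = 2 * q := by
    rw [hf, hq, ← pow_add, ← pow_succ']
    congr 1
    ring
  have hq1 : 1 ≤ q := by rw [hq]; exact Nat.one_le_two_pow
  have hf1 : 1 ≤ f := by rw [hf]; exact Nat.one_le_two_pow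
  have he : e * (q + f) + e = q ^ 2 + 1 := by
    have h1 : (e + f) * (q + f + 1) = (q + 1) * (q + f + 1) := by rw [hef]
    have h2 : (e + f) * (q + f + 1) = (e * (q + f) + e) + (f * q + f * f + f) := by ring
    have h3 : (q + 1) * (q + f + 1) = (q ^ 2 + 1) + (f * q + 2 * q + f) := by ring
    rw [h2, h3, hff] at h1
    omega
  have he1 : 1 ≤ e := by
    rcases Nat.eq_zero_or_pos e with h | h
    · rw [h] at he
      have : 0 < q ^ 2 + 1 := by positivity
      omega
    · exact h
  obtain ⟨r, hr⟩ : ∃ r, q = r + 1 := ⟨q - 1, by omega⟩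
  have hr1 : 1 ≤ r := by
    have : 2 ^ 1 ≤ q := by
      rw [hq]; exact Nat.pow_le_pow_right (by norm_num) (by omega)
    omega
  have ea : q ^ 2 - q = r * q := by
    have : q ^ 2 = r * q + q := by
      conv_lhs => rw [pow_two]
      conv_lhs => enter [1]; rw [hr]
      ring
    omega
  have eb : q ^ 2 + f * q - (f + q) = r * (q + f) := by
    have : q ^ 2 + f * q = r * (q + f) + (f + q) := by
      have h1 : q ^ 2 + f * q = q * (q + f) := by ring
      rw [h1]
      conv_lhs => enter [1]; rw [hr]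
      ring
    omega
  have ec : q - 1 = r := by omega
  have en : q ^ 3 - q ^ 2 = r * q ^ 2 := by
    have : q ^ 3 = r * q ^ 2 + q ^ 2 := by
      have h1 : q ^ 3 = q * q ^ 2 := by ring
      rw [h1]
      conv_lhs => enter [1]; rw [hr]
      ring
    omega
  rw [ea, eb, ec, en] at ht
  rw [ec]
  have hac : e * (r * q) < (q ^ 2 + 1) * r := by
    have h1 : e * q < q ^ 2 + 1 := by
      have : e * (q + f) = e * q + e * f := by ring
      omega
    calc e * (r * q) = (e * q) * r := by ring
      _ < (q ^ 2 + 1) * r := Nat.mul_lt_mul_of_pos_right h1 hr1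
  have hbc : e * (r * (q + f)) < (q ^ 2 + 1) * r := by
    have h1 : e * (q + f) < q ^ 2 + 1 := by omega
    calc e * (r * (q + f)) = (e * (q + f)) * r := by ring
      _ < (q ^ 2 + 1) * r := Nat.mul_lt_mul_of_pos_right h1 hr1
  have ha0 : 0 < e * (r * q) := by positivity
  have hb0 : 0 < e * (r * (q + f)) := by positivity
  set a := e * (r * q) with ha
  set b := e * (r * (q + f)) with hb
  set c := (q ^ 2 + 1) * r with hc
  have hcop : IsCoprime (1 + X ^ a + X ^ b + X ^ c : k[X]) (X ^ (r * q ^ 2)) := by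
    apply IsCoprime.pow_right
    obtain ⟨a', ha'⟩ : ∃ a', a = a' + 1 := ⟨a - 1, by omega⟩
    obtain ⟨b', hb'⟩ : ∃ b', b = b' + 1 := ⟨b - 1, by omega⟩
    obtain ⟨c', hc'⟩ : ∃ c', c = c' + 1 := ⟨c - 1, by omega⟩
    refine ⟨1, -(X ^ a' + X ^ b' + X ^ c'), ?_⟩
    rw [ha', hb', hc']
    ring
  have hev : aeval u (1 + X ^ a + X ^ b + X ^ c : k[X]) = t * aeval u (X ^ (r * q ^ 2) : k[X]) := by
    simp only [map_add, map_one, map_pow, aeval_X]
    exact ht.symm
  have h := rel_deg k Ω u t hu _ _ (pow_ne_zero _ X_ne_zero) hcop hev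
  have hdeg : (1 + X ^ a + X ^ b + X ^ c : k[X]).natDegree = c := by
    rw [natDegree_add_eq_right_of_natDegree_lt, natDegree_X_pow]
    rw [natDegree_X_pow]
    refine lt_of_le_of_lt (natDegree_add_le _ _) (max_lt ?_ ?_)
    · refine lt_of_le_of_lt (natDegree_add_le _ _) (max_lt ?_ ?_)
      · rw [natDegree_one]; omega
      · rw [natDegree_X_pow]; exact hac
    · rw [natDegree_X_pow]; exact hbc
  rw [hdeg, natDegree_X_pow, max_eq_left] at h
  · exact h
  · rw [hc]
    calc r * q ^ 2 = q ^ 2 * r := by ring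
      _ ≤ (q ^ 2 + 1) * r := Nat.mul_le_mul_right _ (by omega)

end Pool.CND
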